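import Pool.Agent.helper55.FPZ.Spec

set_option autoImplicit false

namespace Pool.Agent.FPZ

open Matrix Polynomial Pool.Agent.PL Pool.Agent.X4

/-- The incidence matrix of a multiindex and a block. -/
def DE1_A (F : Type) [Field F] {N n : ℕ} (e : Fin n → Fin N) (J : Fin n → Fin N) :
    Matrix (Fin n) (Fin n) F :=
  fun k l => if J k = e l then 1 else 0

/-- The submatrix of rows `I` and columns `e`. -/
def DE1_S {F : Type} [Field F] {N n : ℕ} (e : Fin n → Fin N) (u : Matrix (Fin N) (Fin N) F)
    (I : Fin n → Fin N) : Matrix (Fin n) (Fin n) F :=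
  fun k l => u (I k) (e l)

theorem DE1_det {F : Type} [Field F] {n : ℕ} (M : Matrix (Fin n) (Fin n) F) :
    M.det = ∑ σ : Equiv.Perm (Fin n), ((Equiv.Perm.sign σ : ℤ) : F) * ∏ k, M k (σ k) := by
  rw [← Matrix.det_transpose, Matrix.det_apply']
  rfl

theorem DE1_grp {F : Type} [Field F] {N n : ℕ} (e : Fin n → Fin N)
    (u : Matrix (Fin N) (Fin N) F) (I : Fin n → Fin N) :
    (tp u n *ᵥ fun J => (DE1_A F e J).det) I =
      (DE1_S e u I).det := by
  have h1 : (tp u n *ᵥ fun J => (DE1_A F e J).det) I =
      ∑ J : Fin n → Fin N, (∏ k, u (I k) (J k)) * (DE1_A F e J).det := rfl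
  rw [h1]
  have h2 : ∀ J : Fin n → Fin N, (∏ k, u (I k) (J k)) * (DE1_A F e J).det =
      ∑ σ : Equiv.Perm (Fin n), ((Equiv.Perm.sign σ : ℤ) : F) *
        ∏ k, (u (I k) (J k) * (if J k = e (σ k) then 1 else 0)) := by
    intro J
    rw [DE1_det, Finset.mul_sum]
    refine Finset.sum_congr rfl fun σ _ => ?_
    rw [Finset.prod_mul_distrib]
    unfold DE1_A
    ring
  rw [Finset.sum_congr rfl fun J _ => h2 J, Finset.sum_comm, DE1_det]
  refine Finset.sum_congr rfl fun σ _ => ?_
  rw [← Finset.mul_sum]
  congr 1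
  have h3 : ∀ k : Fin n, DE1_S e u I k (σ k) =
      ∑ j : Fin N, u (I k) j * (if j = e (σ k) then 1 else 0) := by
    intro k
    unfold DE1_S
    simp
  rw [Finset.prod_congr rfl fun k _ => h3 k, Finset.prod_univ_sum]
  rw [Fintype.piFinset_univ]

theorem DE1_mul {F : Type} [Field F] {N n : ℕ} (e : Fin n → Fin N) (he : Function.Injective e)
    (u : Matrix (Fin N) (Fin N) F) (hu : ∀ i, (∀ k, i ≠ e k) → ∀ l, u i (e l) = 0)
    (I : Fin n → Fin N) :
    DE1_S e u I = DE1_A F e I * DE1_S e u e := by
  funext k l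
  rw [Matrix.mul_apply]
  unfold DE1_A DE1_S
  by_cases h : ∃ m, I k = e m
  · obtain ⟨m, hm⟩ := h
    rw [Finset.sum_eq_single m]
    · rw [if_pos hm, one_mul, hm]
    · intro b _ hb
      rw [if_neg, zero_mul]
      intro hc
      exact hb (he (hc.symm.trans hm))
    · intro hc
      exact absurd (Finset.mem_univ m) hc
  · rw [hu (I k) (fun m hm => h ⟨m, hm⟩) l]
    symm
    refine Finset.sum_eq_zero fun b _ => ?_
    rw [if_neg (fun hc => h ⟨b, hc⟩), zero_mul]

theorem DE1_row {F : Type} [Field F] {n : ℕ} (A : Matrix (Fin n) (Fin n) F) (k : Fin n)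
    (v : Fin n → F) : (A.updateRow k v).det = ∑ l, v l * A.adjugate l k := by
  rw [Matrix.det_eq_sum_mul_adjugate_row _ k]
  refine Finset.sum_congr rfl fun l _ => ?_
  rw [Matrix.updateRow_self, Matrix.adjugate_apply, Matrix.adjugate_apply,
    Matrix.updateRow_idem]

theorem DE1_upd {F : Type} [Field F] {N n : ℕ} (e : Fin n → Fin N) (I : Fin n → Fin N)
    (k : Fin n) (j : Fin N) :
    DE1_A F e (Function.update I k j) =
      (DE1_A F e I).updateRow k (fun l => if j = e l then 1 else 0) := by
  funext a b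
  by_cases h : a = k
  · subst h
    rw [Matrix.updateRow_self]
    unfold DE1_A
    rw [Function.update_self]
  · rw [Matrix.updateRow_ne h]
    unfold DE1_A
    rw [Function.update_of_ne h]

theorem DE1 : DE1_stmt := by
  intro F _ N n e he
  refine ⟨fun J => (DE1_A F e J).det, ?_, ?_⟩
  · intro h
    have h1 := congrFun h e
    have h2 : DE1_A F e e = 1 := by
      funext a b
      unfold DE1_A
      rw [Matrix.one_apply]
      by_cases hab : a = b
      · rw [if_pos (by rw [hab]), if_pos hab]
      · rw [if_neg (fun hc => hab (he hc)), if_neg hab]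
    simp only [h2, Matrix.det_one, Pi.zero_apply] at h1
    exact one_ne_zero h1
  · intro u hu
    constructor
    · funext I
      rw [DE1_grp, DE1_mul e he u hu I, Matrix.det_mul, Pi.smul_apply, smul_eq_mul, mul_comm]
      rfl
    · funext I
      rw [Pi.smul_apply, smul_eq_mul]
      have h1 : der u n (fun J => (DE1_A F e J).det) I =
          ∑ k : Fin n, ∑ j : Fin N, u (I k) j * (DE1_A F e (Function.update I k j)).det := rfl
      rw [h1]
      have h2 : ∀ k : Fin n, ∑ j : Fin N, u (I k) j * (DE1_A F e (Function.update I k j)).det =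
          ∑ l : Fin n, u (I k) (e l) * (DE1_A F e I).adjugate l k := by
        intro k
        have h3 : ∀ j : Fin N, u (I k) j * (DE1_A F e (Function.update I k j)).det =
            ∑ l : Fin n, (u (I k) j * (if j = e l then 1 else 0)) *
              (DE1_A F e I).adjugate l k := by
          intro j
          rw [DE1_upd, DE1_row, Finset.mul_sum]
          refine Finset.sum_congr rfl fun l _ => ?_
          ring
        rw [Finset.sum_congr rfl fun j _ => h3 j, Finset.sum_comm]
        refine Finset.sum_congr rfl fun l _ => ?_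
        rw [← Finset.sum_mul]
        congr 1
        simp
      rw [Finset.sum_congr rfl fun k _ => h2 k]
      have h4 : ∑ k : Fin n, ∑ l : Fin n, u (I k) (e l) * (DE1_A F e I).adjugate l k =
          Matrix.trace (DE1_S e u I * (DE1_A F e I).adjugate) := by
        rw [Matrix.trace]
        refine Finset.sum_congr rfl fun k _ => ?_
        rw [Matrix.diag_apply, Matrix.mul_apply]
        rfl
      rw [h4, DE1_mul e he u hu I, Matrix.mul_assoc, Matrix.trace_mul_comm, Matrix.mul_assoc,
        Matrix.adjugate_mul, Matrix.mul_smul, Matrix.mul_one, Matrix.trace_smul, smul_eq_mul,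
        mul_comm]
      rfl

end Pool.Agent.FPZ
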